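import Mathlib

/-!
# FD, step 2 (Skolem gaps), part D: divided differences

`dd Z f = ∑_{i ∈ Z} f(i) / ∏_{j ∈ Z, j ≠ i} (i - j)`.  On integral polynomials its values are
integers, it kills degree `< #Z - 1` and is `1` on monic polynomials of degree `#Z - 1`.
A function with differences `δ_r`, `‖δ_r / r!‖ → 0`, that does not vanish identically cannot be
small at `D + 1` integers `≤ S` unless `S` is exponentially large.
-/

open Polynomial Finset

namespace H13FD

section field

variable {K : Type*} [Field K] [CharZero K]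

/-- divided difference -/
noncomputable def dd (Z : Finset ℕ) (f : ℕ → K) : K :=
  ∑ i ∈ Z, f i / ∏ j ∈ Z.erase i, ((i : K) - (j : K))

theorem dd_eq_coeff (Z : Finset ℕ) (hZ : Z.Nonempty) (g : ℤ[X]) :
    dd Z (fun i => ((g.eval (i : ℤ) : ℤ) : K)) =
      (((g %ₘ ∏ i ∈ Z, (X - C (i : ℤ))).coeff (#Z - 1) : ℤ) : K) := by
  set W : ℤ[X] := ∏ i ∈ Z, (X - C (i : ℤ)) with hW
  have hWm : W.Monic := monic_prod_of_monic _ _ (fun i _ => monic_X_sub_C _)
  have hWd : W.natDegree = #Z := by
    rw [hW, natDegree_prod_of_monic _ _ (fun i _ => monic_X_sub_C _)]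
    simp only [natDegree_X_sub_C, sum_const, smul_eq_mul, mul_one]
  set r := g %ₘ W with hr
  have hrd : r.degree < #Z := by
    have h1 := degree_modByMonic_lt g hWm
    rwa [degree_eq_natDegree hWm.ne_zero, hWd] at h1
  have hinj : Set.InjOn (fun i : ℕ => (i : K)) (Z : Set ℕ) := fun a _ b _ h => Nat.cast_injective h
  have hP : (r.map (Int.castRingHom K)).degree < #Z := lt_of_le_of_lt degree_map_le hrd
  have h2 := Lagrange.coeff_eq_sum hinj hP
  rw [coeff_map, eq_intCast] at h2
  rw [h2, dd]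
  refine sum_congr rfl fun i hi => ?_
  congr 1
  have h3 : (r.map (Int.castRingHom K)).eval ((i : ℕ) : K) = ((r.eval (i : ℤ) : ℤ) : K) := by
    have := eval_intCast_map (Int.castRingHom K) r (i : ℤ)
    simp
  rw [h3]
  have h4 : g.eval (i : ℤ) = r.eval (i : ℤ) := by
    have h5 : W.eval (i : ℤ) = 0 := by
      rw [hW, eval_prod]
      exact prod_eq_zero hi (by simp)
    conv_lhs => rw [← modByMonic_add_div g W]
    rw [eval_add, eval_mul, h5, zero_mul, add_zero]
  rw [h4]

theorem dd_int (Z : Finset ℕ) (hZ : Z.Nonempty) (g : ℤ[X]) :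
    ∃ c : ℤ, dd Z (fun i => ((g.eval (i : ℤ) : ℤ) : K)) = c := ⟨_, dd_eq_coeff Z hZ g⟩

theorem dd_low (Z : Finset ℕ) (hZ : Z.Nonempty) (g : ℤ[X]) (hg : g.natDegree < #Z - 1) :
    dd Z (fun i => ((g.eval (i : ℤ) : ℤ) : K)) = 0 := by
  rw [dd_eq_coeff Z hZ]
  have hWm : (∏ i ∈ Z, (X - C (i : ℤ))).Monic :=
    monic_prod_of_monic _ _ (fun i _ => monic_X_sub_C _)
  have hWd : (∏ i ∈ Z, (X - C (i : ℤ))).natDegree = #Z := by
    rw [natDegree_prod_of_monic _ _ (fun i _ => monic_X_sub_C _)]
    simp only [natDegree_X_sub_C, sum_const, smul_eq_mul, mul_one]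
  rw [(modByMonic_eq_self_iff hWm).2, coeff_eq_zero_of_natDegree_lt hg, Int.cast_zero]
  refine degree_lt_degree ?_
  omega

theorem dd_top (Z : Finset ℕ) (hZ : Z.Nonempty) (g : ℤ[X]) (hg : g.natDegree = #Z - 1)
    (hm : g.Monic) : dd Z (fun i => ((g.eval (i : ℤ) : ℤ) : K)) = 1 := by
  rw [dd_eq_coeff Z hZ]
  have hWm : (∏ i ∈ Z, (X - C (i : ℤ))).Monic :=
    monic_prod_of_monic _ _ (fun i _ => monic_X_sub_C _)
  have hWd : (∏ i ∈ Z, (X - C (i : ℤ))).natDegree = #Z := by
    rw [natDegree_prod_of_monic _ _ (fun i _ => monic_X_sub_C _)]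
    simp only [natDegree_X_sub_C, sum_const, smul_eq_mul, mul_one]
  have h0 : 0 < #Z := card_pos.2 hZ
  rw [(modByMonic_eq_self_iff hWm).2, ← hg, hm.coeff_natDegree, Int.cast_one]
  refine degree_lt_degree ?_
  omega

theorem dd_sum {ι : Type*} (Z : Finset ℕ) (s : Finset ι) (a : ι → K) (f : ι → ℕ → K) :
    dd Z (fun i => ∑ r ∈ s, a r * f r i) = ∑ r ∈ s, a r * dd Z (f r) := by
  unfold dd
  simp_rw [mul_sum, sum_div]
  rw [sum_comm]
  refine sum_congr rfl fun r _ => sum_congr rfl fun i _ => ?_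
  rw [mul_div_assoc]

theorem dd_congr {Z : Finset ℕ} {f g : ℕ → K} (h : ∀ i ∈ Z, f i = g i) : dd Z f = dd Z g :=
  sum_congr rfl fun i hi => by rw [h i hi]

/-- the divided difference through Newton's expansion -/
theorem dd_newton (Z : Finset ℕ) (S D : ℕ) (hZ : #Z = D + 1) (hS : ∀ i ∈ Z, i ≤ S) (h : ℕ → K)
    (a : ℕ → K) (ha : ∀ s, h s = ∑ r ∈ range (s + 1), a r * (s.descFactorial r : K)) :
    ∃ c : ℕ → ℤ, dd Z h = a D + ∑ r ∈ Ioc D S, a r * c r := by
  have hZn : Z.Nonempty := card_pos.1 (by omega)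
  have hDS : D ≤ S := by
    have h1 : Z ⊆ range (S + 1) := fun i hi => mem_range.2 (Nat.lt_succ_of_le (hS i hi))
    have h2 := card_le_card h1
    rw [card_range] at h2
    omega
  choose c hc using fun r => dd_int (K := K) Z hZn (descPochhammer ℤ r)
  refine ⟨c, ?_⟩
  have h1 : dd Z h = dd Z (fun i => ∑ r ∈ range (S + 1),
      a r * (((descPochhammer ℤ r).eval (i : ℤ) : ℤ) : K)) := by
    refine dd_congr fun i hi => ?_
    rw [ha i]
    have h2 : ∀ r, (((descPochhammer ℤ r).eval (i : ℤ) : ℤ) : K) = (i.descFactorial r : K) := by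
      intro r
      have := descPochhammer_eval_eq_descFactorial ℤ i r
      rw [this]
      simp
    simp_rw [h2]
    refine sum_subset (range_subset_range.2 (by have := hS i hi; omega)) fun r _ hr => ?_
    rw [mem_range, not_lt] at hr
    rw [Nat.descFactorial_of_lt (by omega)]
    simp
  rw [h1, dd_sum]
  have h3 : range (S + 1) = range D ∪ ({D} ∪ Ioc D S) := by
    ext r
    simp only [mem_range, mem_union, mem_singleton, mem_Ioc]
    omega
  rw [h3, sum_union, sum_union, sum_singleton]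
  · have h4 : ∑ r ∈ range D, a r * dd Z
        (fun i => (((descPochhammer ℤ r).eval (i : ℤ) : ℤ) : K)) = 0 := by
      refine sum_eq_zero fun r hr => ?_
      rw [dd_low Z hZn, mul_zero]
      rw [descPochhammer_natDegree]
      have := mem_range.1 hr
      omega
    rw [h4, zero_add, dd_top Z hZn _ (by rw [descPochhammer_natDegree]; omega)
      (monic_descPochhammer ℤ D), mul_one]
    congr 1
    exact sum_congr rfl fun r _ => by rw [hc r]
  · rw [disjoint_left]
    intro r hr
    rw [mem_singleton] at hr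
    subst hr
    simp
  · rw [disjoint_left]
    intro r hr
    have := mem_range.1 hr
    simp only [mem_union, mem_singleton, mem_Ioc]
    omega

end field

end H13FD
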